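import Pool.Agent.H29.DW.Targets

/-!
# The hybrid Weyl bound: (AM) the ambiguity function
-/

set_option autoImplicit false

open MeasureTheory Set Filter Complex

namespace Pool.Agent.H33.DW

open Pool.Agent.H29.DW

/-- the product of the bump functions -/
noncomputable def Pf (H : ℝ) (a : ℂ) (p : ℂ → ℂ) (y : ℂ) : ℂ :=
  p (y + H * a) * (starRingEnd ℂ) (p y)

theorem tw_mul (c a w : ℂ) (H : ℝ) (p : ℂ → ℂ) :
    tw1 c H p (w + a) * (starRingEnd ℂ) (tw1 c H p w) =
      cexp (-((c * (2 * a - a ^ 2 / 2)).re : ℝ) * I) *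
        (cexp (((c * a * w).re : ℝ) * I) * Pf H a p (H * (w - 1))) := by
  have e1 : cexp (-((c * ((w + a - 1) - (w + a - 1) ^ 2 / 2)).re : ℝ) * I) *
      (starRingEnd ℂ) (cexp (-((c * ((w - 1) - (w - 1) ^ 2 / 2)).re : ℝ) * I)) =
      cexp (-((c * (2 * a - a ^ 2 / 2)).re : ℝ) * I) * cexp (((c * a * w).re : ℝ) * I) := by
    rw [← Complex.exp_conj, ← Complex.exp_add, ← Complex.exp_add]
    congr 1
    rw [map_mul, map_neg, Complex.conj_ofReal, Complex.conj_I]
    have h : -(c * ((w + a - 1) - (w + a - 1) ^ 2 / 2)) + c * ((w - 1) - (w - 1) ^ 2 / 2) =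
        -(c * (2 * a - a ^ 2 / 2)) + c * a * w := by ring
    have h' := congrArg Complex.re h
    rw [Complex.add_re, Complex.neg_re, Complex.add_re, Complex.neg_re] at h'
    have h2 := congrArg (fun t : ℝ => (t : ℂ)) h'
    simp only [Complex.ofReal_add, Complex.ofReal_neg] at h2
    linear_combination I * h2
  have e2 : (H : ℂ) * (w + a - 1) = H * (w - 1) + H * a := by ring
  unfold tw1 chp Pf
  rw [map_mul, ← e2]
  linear_combination (p (H * (w + a - 1)) * (starRingEnd ℂ) (p (H * (w - 1)))) * e1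

theorem lf_shift (r : Bool) (u b : ℂ) (G : ℂ → ℂ) (ξ : ℂ) :
    lf r (fun w => u * (cexp (((b * w).re : ℝ) * I) * G w)) ξ =
      u * lf r G (ξ - b / (2 * Real.pi * dg r)) := by
  have hπ : (Real.pi : ℂ) ≠ 0 := by exact_mod_cast Real.pi_ne_zero
  cases r
  · unfold lf dg
    simp only [Bool.false_eq_true, if_false]
    rw [mul_left_comm]
    congr 1
    rw [← integral_const_mul]
    congr 1
    funext w
    have e : cexp (-(2 * Real.pi * (2 * (w * ξ).re) : ℝ) * I) * cexp (((b * w).re : ℝ) * I) =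
        cexp (-(2 * Real.pi * (2 * (w * (ξ - b / (2 * Real.pi * (2 : ℕ)))).re) : ℝ) * I) := by
      rw [← Complex.exp_add]
      congr 1
      have h1 : (w * (ξ - b / (2 * Real.pi * (2 : ℕ)))).re =
          (w * ξ).re - (b * w).re / (4 * Real.pi) := by
        have h2 : w * (ξ - b / (2 * Real.pi * (2 : ℕ))) =
            w * ξ - ((1 / (4 * Real.pi) : ℝ) : ℂ) * (b * w) := by
          push_cast
          field_simp
          ring
        rw [h2, Complex.sub_re, Complex.re_ofReal_mul]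
        ring
      rw [h1]
      push_cast
      field_simp
      ring
    rw [← e]
    ring
  · unfold lf dg
    simp only [if_true]
    rw [← integral_const_mul]
    congr 1
    funext x
    have e : cexp (-(2 * Real.pi * (x * ξ.re) : ℝ) * I) * cexp (((b * x).re : ℝ) * I) =
        cexp (-(2 * Real.pi * (x * (ξ - b / (2 * Real.pi * (1 : ℕ))).re) : ℝ) * I) := by
      rw [← Complex.exp_add]
      congr 1
      have h1 : (ξ - b / (2 * Real.pi * (1 : ℕ))).re = ξ.re - b.re / (2 * Real.pi) := by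
        have h2 : ξ - b / (2 * Real.pi * (1 : ℕ)) = ξ - ((1 / (2 * Real.pi) : ℝ) : ℂ) * b := by
          push_cast
          field_simp
        rw [h2, Complex.sub_re, Complex.re_ofReal_mul]
        ring
      have h3 : (b * x).re = b.re * x := by
        rw [mul_comm, Complex.re_ofReal_mul, mul_comm]
      rw [h1, h3]
      push_cast
      field_simp
      ring
    rw [← e]
    ring

theorem lf_scale (r : Bool) (H : ℝ) (hH : 1 ≤ H) (P : ℂ → ℂ) (ξ : ℂ) :
    ‖lf r (fun w => P (H * (w - 1))) ξ‖ = H ^ (-(dg r : ℝ)) * ‖lf r P (ξ / H)‖ := by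
  have hH0 : 0 < H := by linarith
  have hHC : (H : ℂ) ≠ 0 := by exact_mod_cast hH0.ne'
  cases r
  · unfold lf dg
    simp only [Bool.false_eq_true, if_false]
    obtain ⟨F, hF⟩ : ∃ F : ℂ → ℂ, F = fun y =>
      cexp (-(2 * Real.pi * (2 * ξ.re) : ℝ) * I) *
        (cexp (-(2 * Real.pi * (2 * (y * (ξ / H)).re) : ℝ) * I) * P y) := ⟨_, rfl⟩
    have e1 : ∀ w : ℂ, cexp (-(2 * Real.pi * (2 * (w * ξ).re) : ℝ) * I) * P (H * (w - 1)) =
        F (H • (w - 1)) := by
      intro w
      have h1 : ((H : ℂ) * (w - 1) * (ξ / H)).re = (w * ξ).re - ξ.re := by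
        have h2 : (H : ℂ) * (w - 1) * (ξ / H) = w * ξ - ξ := by
          field_simp
        rw [h2, Complex.sub_re]
      have h3 : cexp (-(2 * Real.pi * (2 * (w * ξ).re) : ℝ) * I) =
          cexp (-(2 * Real.pi * (2 * ξ.re) : ℝ) * I) *
            cexp (-(2 * Real.pi * (2 * ((H : ℂ) * (w - 1) * (ξ / H)).re) : ℝ) * I) := by
        rw [← Complex.exp_add, h1]
        congr 1
        push_cast
        ring
      rw [h3, hF]
      simp only [Complex.real_smul]
      ring
    have e2 : ∫ w : ℂ, cexp (-(2 * Real.pi * (2 * (w * ξ).re) : ℝ) * I) * P (H * (w - 1)) =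
        |(H ^ 2)⁻¹| • ∫ y, F y := by
      rw [integral_congr_ae (Filter.Eventually.of_forall e1)]
      rw [integral_sub_right_eq_self (fun w : ℂ => F (H • w)) 1]
      rw [Measure.integral_comp_smul volume F H]
      rw [Complex.finrank_real_complex]
    rw [e2, norm_mul, norm_mul, norm_smul, hF, integral_const_mul, norm_mul]
    rw [← Complex.ofReal_neg, Complex.norm_exp_ofReal_mul_I, one_mul, Real.norm_eq_abs, abs_abs,
      abs_of_pos (inv_pos.2 (pow_pos hH0 2))]
    have h3 : H ^ (-((2 : ℕ) : ℝ)) = (H ^ 2)⁻¹ := by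
      rw [Real.rpow_neg hH0.le, Real.rpow_natCast]
    rw [h3]
    ring
  · unfold lf dg
    simp only [if_true]
    obtain ⟨F, hF⟩ : ∃ F : ℝ → ℂ, F = fun y =>
      cexp (-(2 * Real.pi * ξ.re : ℝ) * I) *
        (cexp (-(2 * Real.pi * (y * (ξ / H).re) : ℝ) * I) * P y) := ⟨_, rfl⟩
    have e1 : ∀ x : ℝ, cexp (-(2 * Real.pi * (x * ξ.re) : ℝ) * I) * P (H * ((x : ℂ) - 1)) =
        F (H * (x - 1)) := by
      intro x
      have h2 : (H : ℂ) * ((x : ℂ) - 1) = ((H * (x - 1) : ℝ) : ℂ) := by push_cast; ring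
      have h3 : cexp (-(2 * Real.pi * (x * ξ.re) : ℝ) * I) =
          cexp (-(2 * Real.pi * ξ.re : ℝ) * I) *
            cexp (-(2 * Real.pi * (H * (x - 1) * (ξ / H).re) : ℝ) * I) := by
        rw [← Complex.exp_add, Complex.div_ofReal_re]
        congr 1
        push_cast
        field_simp
        ring
      rw [h3, hF, h2]
      simp only
      ring
    have e2 : ∫ x : ℝ, cexp (-(2 * Real.pi * (x * ξ.re) : ℝ) * I) * P (H * ((x : ℂ) - 1)) =
        |H⁻¹| • ∫ y, F y := by
      rw [integral_congr_ae (Filter.Eventually.of_forall e1)]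
      rw [integral_sub_right_eq_self (fun x : ℝ => F (H * x)) 1]
      exact Measure.integral_comp_mul_left F H
    rw [e2, norm_smul, hF, integral_const_mul, norm_mul]
    rw [← Complex.ofReal_neg, Complex.norm_exp_ofReal_mul_I, one_mul, Real.norm_eq_abs, abs_abs,
      abs_of_pos (inv_pos.2 hH0)]
    have h3 : H ^ (-((1 : ℕ) : ℝ)) = H⁻¹ := by
      rw [Real.rpow_neg hH0.le, Real.rpow_natCast, pow_one]
    rw [h3]

theorem Bmp_Pf {A : ℕ} {B : ℝ} {p : ℂ → ℂ} (hB : 0 ≤ B) (h : Bmp A B p) (H : ℝ) (a : ℂ) :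
    Bmp A (2 ^ A * B ^ 2) (Pf H a p) := by
  have hc1 : ∀ n : ℕ, ContDiff ℝ n (fun y : ℂ => p (y + H * a)) := fun n =>
    (h.smooth n).comp (contDiff_id.add contDiff_const)
  have hc2 : ∀ n : ℕ, ContDiff ℝ n (fun y : ℂ => (starRingEnd ℂ) (p y)) := fun n =>
    Complex.conjCLE.contDiff.comp (h.smooth n)
  refine ⟨fun n => (hc1 n).mul (hc2 n), fun x hx => ?_, fun j hj x => ?_⟩
  · unfold Pf
    rw [h.supp x hx, map_zero, mul_zero]
  · have h1 : ∀ i ≤ A, ‖iteratedFDeriv ℝ i (fun y : ℂ => p (y + H * a)) x‖ ≤ B := by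
      intro i hi
      rw [iteratedFDeriv_comp_add_right]
      exact h.bound i hi _
    have h2 : ∀ i ≤ A, ‖iteratedFDeriv ℝ i (fun y : ℂ => (starRingEnd ℂ) (p y)) x‖ ≤ B := by
      intro i hi
      have h3 := Complex.conjLIE.norm_iteratedFDeriv_comp_left (𝕜 := ℝ) (f := p) (x := x) (i := i)
      have h4 : (fun y : ℂ => (starRingEnd ℂ) (p y)) = Complex.conjLIE ∘ p := rfl
      rw [h4, h3]
      exact h.bound i hi _
    calc ‖iteratedFDeriv ℝ j (Pf H a p) x‖
        ≤ ∑ i ∈ Finset.range (j + 1), (j.choose i : ℝ) *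
          ‖iteratedFDeriv ℝ i (fun y : ℂ => p (y + H * a)) x‖ *
            ‖iteratedFDeriv ℝ (j - i) (fun y : ℂ => (starRingEnd ℂ) (p y)) x‖ :=
          norm_iteratedFDeriv_mul_le (N := (j : ℕ)) (hc1 j) (hc2 j) x le_rfl
      _ ≤ ∑ i ∈ Finset.range (j + 1), (j.choose i : ℝ) * B ^ 2 := by
          refine Finset.sum_le_sum fun i hi => ?_
          rw [Finset.mem_range] at hi
          rw [mul_assoc, sq]
          refine mul_le_mul_of_nonneg_left ?_ (by positivity)
          exact mul_le_mul (h1 i (by omega)) (h2 _ (by omega)) (norm_nonneg _) hB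
      _ = 2 ^ j * B ^ 2 := by
          rw [← Finset.sum_mul]
          congr 1
          exact_mod_cast Nat.sum_range_choose j
      _ ≤ 2 ^ A * B ^ 2 := by
          refine mul_le_mul_of_nonneg_right ?_ (by positivity)
          exact pow_le_pow_right₀ (by norm_num) hj

theorem Pf_zero {A : ℕ} {B : ℝ} {p : ℂ → ℂ} (h : Bmp A B p) {H : ℝ} (hH : 1 ≤ H) {a : ℂ}
    (ha : 1 / 4 < H * ‖a‖) (y : ℂ) : Pf H a p y = 0 := by
  unfold Pf
  by_cases h1 : 1 / 16 < ‖y‖
  · rw [h.supp y h1, map_zero, mul_zero]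
  · have h2 : 1 / 16 < ‖y + H * a‖ := by
      have h3 : ‖(H : ℂ) * a‖ ≤ ‖y + H * a‖ + ‖y‖ := by
        have := norm_sub_le (y + H * a) y
        rwa [add_sub_cancel_left] at this
      rw [norm_mul, Complex.norm_real, Real.norm_of_nonneg (by linarith)] at h3
      linarith
    rw [h.supp _ h2, zero_mul]

theorem lf_zero (r : Bool) (ξ : ℂ) : lf r (fun _ => 0) ξ = 0 := by
  unfold lf
  cases r <;> simp

/-- (AM) the ambiguity function -/
theorem pf_AM (hFT : V_FT) : V_AM := by
  intro A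
  obtain ⟨C, hC0, hC⟩ := hFT A
  refine ⟨C * 2 ^ A, by positivity, ?_⟩
  intro r B H c a ξ p hB hp hH hc ha hξ
  have hH0 : 0 < H := by linarith
  have hπ := Real.pi_pos
  have e1 : (fun w => tw1 c H p (w + a) * (starRingEnd ℂ) (tw1 c H p w)) = fun w =>
      cexp (-((c * (2 * a - a ^ 2 / 2)).re : ℝ) * I) *
        (cexp (((c * a * w).re : ℝ) * I) * (fun w => Pf H a p (H * (w - 1))) w) := by
    funext w
    exact tw_mul c a w H p
  have e2 : lf r (fun w => tw1 c H p (w + a) * (starRingEnd ℂ) (tw1 c H p w)) ξ =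
      cexp (-((c * (2 * a - a ^ 2 / 2)).re : ℝ) * I) *
        lf r (fun w => Pf H a p (H * (w - 1))) (ξ - c * a / (2 * Real.pi * dg r)) := by
    rw [e1, lf_shift]
  rw [e2, norm_mul, ← Complex.ofReal_neg, Complex.norm_exp_ofReal_mul_I, one_mul]
  unfold amb
  by_cases h4 : H * ‖a‖ ≤ 1 / 4
  · rw [if_pos h4, lf_scale r H hH]
    have h5 := hC r (2 ^ A * B ^ 2) (Pf H a p) (by positivity) (Bmp_Pf hB hp H a)
      ((ξ - c * a / (2 * Real.pi * dg r)) / H) (by
        intro hr
        have g1 := hc hr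
        have g2 := ha hr
        have g3 := hξ hr
        subst hr
        have g4 : (c * a).im = 0 := by rw [Complex.mul_im, g1, g2]; ring
        have g5 : c * a / (2 * Real.pi * dg true) = ((1 / (2 * Real.pi) : ℝ) : ℂ) * (c * a) := by
          unfold dg
          have hπ : (Real.pi : ℂ) ≠ 0 := by exact_mod_cast Real.pi_ne_zero
          push_cast
          simp only [if_true]
          field_simp
        rw [Complex.div_ofReal_im, Complex.sub_im, g5, Complex.im_ofReal_mul, g4, g3]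
        simp)
    have h6 : ‖(ξ - c * a / (2 * Real.pi * dg r)) / H‖ =
        ‖ξ - c * a / (2 * Real.pi * dg r)‖ / H := by
      rw [norm_div, Complex.norm_real, Real.norm_of_nonneg hH0.le]
    rw [h6] at h5
    have h7 := mul_le_mul_of_nonneg_left h5 (Real.rpow_nonneg hH0.le (-(dg r : ℝ)))
    refine h7.trans (le_of_eq ?_)
    ring
  · rw [if_neg h4, mul_zero]
    have h5 : (fun w : ℂ => Pf H a p (H * (w - 1))) = fun _ => 0 := by
      funext w
      exact Pf_zero hp hH (not_le.1 h4) _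
    rw [h5, lf_zero, norm_zero]

end Pool.Agent.H33.DW
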